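import Pool.Agent.H40.G9
import Pool.Agent.H40.Zr11

set_option autoImplicit false
set_option synthInstance.maxSize 2000

namespace Pool.Agent.Results.MP_d9473e_lc.Model

open Pool.Agent.H40.Bspt Pool.Agent.H40.Jz

variable {M : Type} (E : M → M → Prop)

/-- every denumerable family of nonempty finite sets has a choice function -/
def CACfin : Prop :=
  ∀ A, (∃ φ : Om E → Ex E A, Intl E (fun n => (φ n).1) ∧ Function.Bijective φ) →
    (∀ F, E F A → IsFin E F ∧ ∃ x, E x F) → ∃ μ : Ex E A → M, Intl E μ ∧ ∀ F, E (μ F) F.1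

variable {E} (ℛ : Reals E)

/-- `(X, T)` is homeomorphic to a subspace of the cube `[0, 1] ^ ℝ`: the map `x ↦ h x` lies in the
model, takes values in the cube, is injective, continuous and open onto its image. -/
def EmbCube (X T : M) : Prop :=
  ∃ h : Ex E X → Ex E ℛ.R → Ex E ℛ.R, Intl2 E (fun x j => (h x j).1) ∧
    (∀ x j, 0 ≤ h x j ∧ h x j ≤ 1) ∧ Function.Injective h ∧
    (∀ x j, ∀ ε > 0, ∃ U, E U T ∧ E x.1 U ∧ ∀ y : Ex E X, E y.1 U → |h y j - h x j| < ε) ∧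
    ∀ U (x : Ex E X), E U T → E x.1 U → ∃ F, IsFin E F ∧ ∃ ε > 0,
      ∀ y, (∀ j : Ex E ℛ.R, E j.1 F → |h y j - h x j| < ε) → E y.1 U

open Pool.Agent.H40.Zt Pool.Agent.H40.Gn Classical in
theorem result : ∃ (M : Type) (E : M → M → Prop) (ν : ℕ → M), IsZF E ∧ Numer E ν ∧
    Nonempty (Reals E) ∧
    (∀ (ℛ : Reals E) (X T : M), IsTop E X T → Compact E X T → Metrizable ℛ X T → EmbCube ℛ X T) ∧
    ¬ CACfin E := by
  obtain ⟨M, E, Q, S⟩ := ex_sm
  have h := Q.zf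
  refine ⟨M, E, Q.ν, h, Q.num, ⟨Q.reals⟩, fun ℛ X T _ c ⟨δ, a, b, s, t, o⟩ => ?_, fun c => ?_⟩
  · obtain ⟨d, _, e⟩ := intl2_r ℛ a
    have := @tR2 _ _ ℛ d _
    simp only [← e, Subtype.forall] at b s t o
    have d0 : ∀ x, E x X → d x x = 0 := fun x a => (b x a x a).2 rfl
    have dt : ∀ x y z, E x X → E y X → E z X → d x z ≤ d x y + d y z := fun x y z a b c =>
      t x a y b z c
    have ds : ∀ x y, E x X → E y X → d x y = d y x := fun x y a b => s x a y b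
    have bl := fun x a ε b => @ball M E ℛ X T d h _ d0 dt o x a ε b
    obtain ⟨K, Φ, D, k1, k2, k3⟩ := S.svc X
    obtain ⟨pt, _, p⟩ := dense_r ℛ h d ds dt (fun ε a => (cpt h c (fun P => ∃ F, IsFin E F ∧
      ∀ x, E x X → P x → ∃ u, E u F ∧ E u X ∧ d u x < ε)
      (fun P Q ⟨F, b, e⟩ f => ⟨F, b, fun x g i => e x g (f x g i)⟩)
      (fun P Q ⟨F, b, e⟩ ⟨G, f, g⟩ => (h.finU' b f).imp fun H i => ⟨i.1, fun x j k => k.elim
        (fun k => (e x j k).imp fun u l => ⟨(i.2 u).2 (Or.inl l.1), l.2⟩)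
        fun k => (g x j k).imp fun u l => ⟨(i.2 u).2 (Or.inr l.1), l.2⟩⟩)
      (h.emp.imp fun _ b => ⟨h.fin0 b, fun _ _ => False.elim⟩) fun x b => (bl x b ε a).imp fun U e =>
        ⟨e.1, e.2.1, (few_one h (P := (· = x)) fun _ _ i j => i.trans j.symm).imp fun F f =>
          ⟨f.1, fun y _ g => ⟨x, f.2 x rfl, b, e.2.2 y g⟩⟩⟩).imp fun F b =>
            ⟨b.1, fun x e => b.2 x e trivial⟩) d0 (fun x y a b => k1 x a y b)
      (fun α A x => ∃ p, E p D ∧ IsPair E p α A ∧ App E Φ p x)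
      (fun α A x y a b ⟨p, c, e, f⟩ ⟨q, _, g, i⟩ => k2 p c x a y b f (h.pair_uniq g e ▸ i))
      fun x a => let ⟨p, b, α, c, A, _, e, f⟩ := k3 x a; ⟨α, A, c, e, p, b, f⟩
    have := @Pool.Agent.H40.Zt.t1 _ E pt _
    have nn : ∀ x y, E x X → E y X → 0 ≤ d x y := fun x y a b => by
      linarith [dt x y x a b a, ds x y a b, d0 x a]
    let g : M → M → Ex E ℛ.R := fun x r => if E (pt r) X then min 1 (d (pt r) x) else 0
    have : Pool.Agent.H40.Zt.T2 E fun x r => (g x r).1 := inferInstance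
    have k : ∀ x, E x X → ∀ ε > 0, ∃ r : Ex E ℛ.R, ∃ θ > 0, ∀ y, E y X →
        |g y r.1 - g x r.1| < θ → d x y < ε := fun x a ε b => by
      have c : 0 < min 1 ε / 3 := by positivity
      obtain ⟨r, e, f⟩ := p x a _ c
      refine ⟨r, _, c, fun y i j => ?_⟩
      simp only [g, if_pos e, abs_lt] at j
      have := dt x _ y a e i
      have := ds x _ a e
      have := min_le_left 1 ε
      have := min_le_right 1 ε
      have := min_le_right 1 (d (pt r.1) x)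
      rcases min_choice 1 (d (pt r.1) y) with l | l <;> linarith [j.2]
    refine ⟨fun x r => g x.1 r.1, intl2_of h (fun x r => (g x r).1) fun x r _ _ => (g x r).2,
      fun x r => ?_, fun x y i => ?_, fun x r ε i => ?_, fun U x i j => ?_⟩
    · simp only [g]
      split_ifs with i
      exacts [⟨le_min zero_le_one (nn _ _ i x.2), min_le_left _ _⟩, ⟨le_rfl, zero_le_one⟩]
    · refine (b x.1 x.2 y.1 y.2).1 (le_antisymm (le_of_forall_pos_le_add fun ε j => ?_)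
        (nn _ _ x.2 y.2))
      obtain ⟨r, θ, l, m⟩ := k x.1 x.2 ε j
      rw [zero_add]
      exact (m y.1 y.2 (by rwa [show g x.1 r.1 = g y.1 r.1 from congrFun i r, sub_self, abs_zero])).le
    · refine (bl x.1 x.2 ε i).imp fun U j => ⟨j.1, j.2.1, fun y l => ?_⟩
      simp only [g]
      split_ifs with m
      · have := j.2.2 y.1 l
        have := dt _ x.1 y.1 m x.2 y.2
        have := dt _ y.1 x.1 m y.2 x.2
        have := ds x.1 y.1 x.2 y.2
        rw [abs_lt]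
        rcases min_cases 1 (d (pt r.1) y.1) with n | n <;>
          rcases min_cases 1 (d (pt r.1) x.1) with q | q <;> constructor <;> linarith [n.1, n.2, q.1, q.2]
      · simpa using i
    · obtain ⟨ε, l, m⟩ := ((o U).1 i).2 x.1 x.2 j
      obtain ⟨r, θ, n, q⟩ := k x.1 x.2 ε l
      obtain ⟨F, f1, f2⟩ := few_one h (P := (· = r.1)) fun _ _ i j => i.trans j.symm
      exact ⟨F, f1, θ, n, fun y u => m y.1 y.2 (q y.1 y.2 (u r (f2 _ rfl)))⟩
  · obtain ⟨A, s, P, u, a, b, d, e, f, g⟩ := S.prs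
    have n : ∀ x : Om E, ∃ n, x.1 = Q.ν n := fun x => (Q.num.2 _).1 x.2
    choose n hn using n
    obtain ⟨μ, ⟨m, i⟩, j⟩ := c A ⟨fun x => ⟨P (n x), (a _).2 ⟨_, rfl⟩⟩, ⟨s, fun x y => by
      rw [hn x, b]⟩, fun x y i => Subtype.ext (by rw [hn x, hn y, d (congrArg Subtype.val i)]),
      fun ⟨z, i⟩ => ((a z).1 i).elim fun k j => ⟨⟨Q.ν k, (Q.num.2 _).2 ⟨k, rfl⟩⟩, Subtype.ext
        ((congrArg P (nu_inj h Q.num (hn ⟨Q.ν k, _⟩)).symm).trans j.symm)⟩⟩ fun F i => by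
      obtain ⟨k, rfl⟩ := (a F).1 i
      obtain ⟨D, j, l⟩ := ex_fin h (Set.finite_range (u k))
      exact ⟨fin_sub h j fun z m => (l z).2 (((e k z).1 m).imp fun _ => Eq.symm),
        _, (e k _).2 ⟨true, rfl⟩⟩
    obtain ⟨k, l⟩ := g m
    obtain ⟨b, o⟩ := (e k _).1 (j ⟨P k, (a _).2 ⟨k, rfl⟩⟩)
    exact f k b (o.symm.trans ((i ⟨P k, _⟩ _).1 (l b ((i ⟨P k, _⟩ _).2 o.symm))).symm)

end Pool.Agent.Results.MP_d9473e_lc.Model
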